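import Pool.Agent.Helper97.LPP.Defs

/-!
LPP-8: superexponential lower tail of the last passage time by blocks and strips
(problem MP_6c0a5d_pr).
-/

open MeasureTheory ProbabilityTheory Filter Topology
open scoped ENNReal

namespace Helper97.LPP

variable {Ω : Type*} [MeasurableSpace Ω] {P : Measure Ω} [IsProbabilityMeasure P]
  {X : ℕ × ℕ → Ω → ℝ}

/-- expectations of products of functions of disjoint finite sets of independent weights -/
theorem h64_lintegral_prod_local (hm : ∀ w, Measurable (X w)) (hi : iIndepFun X P)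
    {ι : Type*} [DecidableEq ι] (s : Finset ι) (S : ι → Finset (ℕ × ℕ))
    (hd : ∀ i ∈ s, ∀ j ∈ s, i ≠ j → Disjoint (S i) (S j))
    (f : ι → (ℕ × ℕ → ℝ) → ℝ≥0∞) (hf : ∀ i, Measurable (f i)) (hl : ∀ i, Local (S i) (f i)) :
    ∫⁻ ω, ∏ i ∈ s, f i (fun w => X w ω) ∂P = ∏ i ∈ s, ∫⁻ ω, f i (fun w => X w ω) ∂P := by
  induction s using Finset.induction_on with
  | empty => simp
  | insert j s hj ih =>
    rw [Finset.prod_insert hj, ← ih (fun i hi' k hk hik => hd i (Finset.mem_insert_of_mem hi') k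
      (Finset.mem_insert_of_mem hk) hik)]
    have hX : Measurable (fun ω (w : ℕ × ℕ) => X w ω) := measurable_pi_iff.2 hm
    have hfs : Measurable (fun x : ℕ × ℕ → ℝ => ∏ i ∈ s, f i x) :=
      Finset.measurable_prod _ fun i _ => hf i
    have hind : IndepFun (fun ω => f j (fun w => X w ω))
        (fun ω => (fun x : ℕ × ℕ → ℝ => ∏ i ∈ s, f i x) (fun w => X w ω)) P := by
      refine indep_local hm hi (S := S j) (T := s.biUnion S) ?_ (hf j) hfs (hl j) ?_
      · rw [Finset.disjoint_biUnion_right]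
        intro i hi'
        exact hd j (Finset.mem_insert_self _ _) i (Finset.mem_insert_of_mem hi')
          (fun h => hj (h ▸ hi'))
      · intro x y hxy
        refine Finset.prod_congr rfl fun i hi' => ?_
        exact hl i x y fun w hw => hxy w (Finset.mem_biUnion.2 ⟨i, hi', hw⟩)
    have := lintegral_mul_eq_lintegral_mul_lintegral_of_indepFun'' ((hf j).comp hX).aemeasurable
      (hfs.comp hX).aemeasurable hind
    simp only [Function.comp_apply] at this
    rw [← this]
    refine lintegral_congr fun ω => ?_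
    rw [Finset.prod_insert hj]

/-- passage time of the block `(i, k)` of size `A × B` -/
noncomputable def h64_blk (A B : ℕ) (i : ℕ × ℕ) (x : ℕ × ℕ → ℝ) : ℝ :=
  lp x (i.1 * A, i.2 * B) (i.1 * A + (A - 1), i.2 * B + (B - 1))

/-- a chain of diagonal blocks -/
theorem h64_chain {x : ℕ × ℕ → ℝ} (hx : ∀ w, 0 ≤ x w) {A B : ℕ} (hA : 1 ≤ A) (hB : 1 ≤ B)
    (j n : ℕ) : ∑ k ∈ Finset.range (n + 1), h64_blk A B (j + k, k) x ≤
      lp x (0, 0) ((j + n) * A + (A - 1), n * B + (B - 1)) := by
  induction n with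
  | zero =>
    simp only [zero_add, Finset.range_one, Finset.sum_singleton, add_zero, h64_blk]
    refine lp_mono_rect hx ?_ ?_ ?_
    · exact ⟨Nat.zero_le _, Nat.zero_le _⟩
    · exact ⟨by simp, by simp⟩
    · exact le_rfl
  | succ n ih =>
    rw [Finset.sum_range_succ]
    set k := (j + n) * A + (A - 1) with hk
    set l := n * B + (B - 1) with hl
    have e1 : (j + (n + 1)) * A = k + 1 := by
      rw [hk]; have : (j + (n + 1)) * A = (j + n) * A + A := by ring
      omega
    have e2 : (n + 1) * B = l + 1 := by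
      rw [hl]; have : (n + 1) * B = n * B + B := by ring
      omega
    have h1 : h64_blk A B (j + (n + 1), n + 1) x ≤
        lp x (k, l + 1) ((j + (n + 1)) * A + (A - 1), (n + 1) * B + (B - 1)) := by
      unfold h64_blk
      simp only
      refine lp_mono_rect hx ?_ ?_ le_rfl
      · exact ⟨by simp only; omega, by simp only; omega⟩
      · exact ⟨by simp only; omega, by simp only; omega⟩
    have h2 := lp_up_le x (p := (0, 0)) (q := ((j + (n + 1)) * A + (A - 1), (n + 1) * B + (B - 1)))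
      (k := k) (j := l) ⟨Nat.zero_le _, Nat.zero_le _⟩
      ⟨by simp only; omega, by simp only; omega⟩
    linarith

/-- blocks are pairwise disjoint -/
theorem h64_blk_disj {A B : ℕ} (hA : 1 ≤ A) (hB : 1 ≤ B) {i k : ℕ × ℕ} (hik : i ≠ k) :
    Disjoint (Finset.Icc ((i.1 * A, i.2 * B) : ℕ × ℕ) (i.1 * A + (A - 1), i.2 * B + (B - 1)))
      (Finset.Icc ((k.1 * A, k.2 * B) : ℕ × ℕ) (k.1 * A + (A - 1), k.2 * B + (B - 1))) := by
  have key : ∀ {A : ℕ}, 1 ≤ A → ∀ {u v w : ℕ}, u * A ≤ w → w ≤ u * A + (A - 1) →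
      v * A ≤ w → w ≤ v * A + (A - 1) → u = v := by
    intro A hA u v w h1 h2 h3 h4
    have e1 : w / A = u := by
      rw [Nat.div_eq_iff (by omega)]
      constructor
      · exact h1
      · have : (u + 1) * A = u * A + A := by ring
        omega
    have e2 : w / A = v := by
      rw [Nat.div_eq_iff (by omega)]
      constructor
      · exact h3
      · have : (v + 1) * A = v * A + A := by ring
        omega
    omega
  rw [Finset.disjoint_left]
  intro w hw1 hw2
  rw [Finset.mem_Icc] at hw1 hw2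
  apply hik
  ext
  · exact key hA hw1.1.1 hw1.2.1 hw2.1.1 hw2.2.1
  · exact key hB hw1.1.2 hw1.2.2 hw2.1.2 hw2.2.2

theorem h64_blk_law (h : IsExpField P X) (A B : ℕ) (i : ℕ × ℕ) (s : ℝ) :
    ∫⁻ ω, ENNReal.ofReal (Real.exp (-(s * h64_blk A B i (fun w => X w ω)))) ∂P =
      ∫⁻ ω, ENNReal.ofReal (Real.exp (-(s * lp (fun w => X w ω) (0, 0) (A - 1, B - 1)))) ∂P := by
  have h1 := h.lp_law h (i.1 * A, i.2 * B) (0, 0) (A - 1) (B - 1)
  have hf : Measurable (fun t : ℝ => ENNReal.ofReal (Real.exp (-(s * t)))) := by fun_prop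
  have h2 := lintegral_map (μ := P) hf
    (IsExpField.measurable_lp h.meas (i.1 * A, i.2 * B) (i.1 * A + (A - 1), i.2 * B + (B - 1)))
  have h3 := lintegral_map (μ := P) hf
    (IsExpField.measurable_lp h.meas (0, 0) (0 + (A - 1), 0 + (B - 1)))
  simp only [h64_blk]
  rw [← h2]
  simp only [zero_add] at h3 h1
  rw [← h3, h1]

/-- Chernoff bound over `S` disjoint chains of `n + 1` blocks -/
theorem h64_strip (h : IsExpField P X) {A B : ℕ} (hA : 1 ≤ A) (hB : 1 ≤ B) (S n : ℕ)
    {q : ℕ × ℕ} (hq1 : (S + n) * A ≤ q.1 + 1) (hq2 : (n + 1) * B ≤ q.2 + 1) {s : ℝ}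
    (hs : 0 ≤ s) (x : ℝ) :
    P {ω | lp (fun w => X w ω) (0, 0) q ≤ x} ≤ ENNReal.ofReal (Real.exp (s * (S * x))) *
      (∫⁻ ω, ENNReal.ofReal (Real.exp (-(s * lp (fun w => X w ω) (0, 0) (A - 1, B - 1)))) ∂P) ^
        (S * (n + 1)) := by
  set I := (Finset.range S) ×ˢ (Finset.range (n + 1)) with hI
  let F : ℕ × ℕ → (ℕ × ℕ → ℝ) → ℝ≥0∞ := fun jk x =>
    ENNReal.ofReal (Real.exp (-(s * h64_blk A B (jk.1 + jk.2, jk.2) x)))
  have hF : ∀ jk, Measurable (F jk) := by
    intro jk
    have h1 : Measurable (fun x => h64_blk A B (jk.1 + jk.2, jk.2) x) := lp_measurable _ _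
    have h2 : Measurable (fun t : ℝ => ENNReal.ofReal (Real.exp (-(s * t)))) := by fun_prop
    exact h2.comp h1
  have hinj : ∀ a b : ℕ × ℕ, a ≠ b → (a.1 + a.2, a.2) ≠ (b.1 + b.2, b.2) := by
    intro a b hab heq
    simp only [Prod.mk.injEq] at heq
    apply hab
    ext
    · omega
    · exact heq.2
  have h1 : ∫⁻ ω, ∏ i ∈ I, F i (fun w => X w ω) ∂P =
      (∫⁻ ω, ENNReal.ofReal (Real.exp (-(s * lp (fun w => X w ω) (0, 0) (A - 1, B - 1)))) ∂P) ^
        (S * (n + 1)) := by
    rw [h64_lintegral_prod_local h.meas h.indep I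
      (fun i => Finset.Icc (((i.1 + i.2) * A, i.2 * B) : ℕ × ℕ)
        ((i.1 + i.2) * A + (A - 1), i.2 * B + (B - 1)))
      (fun i _ k _ hik => h64_blk_disj hA hB (hinj i k hik)) F hF]
    · rw [Finset.prod_congr rfl (fun i _ => h64_blk_law h A B (i.1 + i.2, i.2) s)]
      rw [Finset.prod_const, hI, Finset.card_product, Finset.card_range, Finset.card_range]
    · intro i x y hxy
      have := local_lp ((i.1 + i.2) * A, i.2 * B)
        ((i.1 + i.2) * A + (A - 1), i.2 * B + (B - 1)) x y hxy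
      simp only at this
      simp only [F, h64_blk]
      rw [this]
  rw [← h1, ← lintegral_const_mul]
  · have hms : MeasurableSet {ω | lp (fun w => X w ω) (0, 0) q ≤ x} :=
      measurableSet_le (IsExpField.measurable_lp h.meas _ _) measurable_const
    rw [← lintegral_indicator_one hms]
    refine lintegral_mono_ae ?_
    filter_upwards [h.ae_pos] with ω hω
    have hω0 : ∀ w, 0 ≤ X w ω := fun w => (hω w).le
    by_cases hmem : ω ∈ {ω | lp (fun w => X w ω) (0, 0) q ≤ x}
    · rw [Set.indicator_of_mem hmem]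
      simp only [Pi.one_apply]
      rw [← ENNReal.ofReal_prod_of_nonneg (fun i _ => (Real.exp_pos _).le),
        ← ENNReal.ofReal_mul (Real.exp_pos _).le, ← Real.exp_sum, ← Real.exp_add]
      rw [ENNReal.one_le_ofReal, Real.one_le_exp_iff]
      have h2 : ∑ i ∈ I, h64_blk A B (i.1 + i.2, i.2) (fun w => X w ω) ≤ S * x := by
        rw [hI, Finset.sum_product]
        have h3 : ∀ j ∈ Finset.range S, ∑ k ∈ Finset.range (n + 1),
            h64_blk A B (j + k, k) (fun w => X w ω) ≤ x := by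
          intro j hj
          rw [Finset.mem_range] at hj
          refine (h64_chain (x := fun w => X w ω) hω0 hA hB j n).trans ?_
          refine le_trans ?_ hmem
          refine lp_mono_rect hω0 le_rfl ⟨Nat.zero_le _, Nat.zero_le _⟩ ?_
          constructor
          · simp only
            have e1 : (j + n + 1) * A ≤ (S + n) * A := Nat.mul_le_mul_right A (by omega)
            have e2 : (j + n + 1) * A = (j + n) * A + A := by ring
            omega
          · simp only
            have e2 : (n + 1) * B = n * B + B := by ring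
            omega
        refine (Finset.sum_le_sum h3).trans ?_
        rw [Finset.sum_const, Finset.card_range, nsmul_eq_mul]
      rw [Finset.sum_neg_distrib, ← Finset.mul_sum]
      have := mul_le_mul_of_nonneg_left h2 hs
      linarith
    · rw [Set.indicator_of_notMem hmem]
      exact zero_le
  · have hX : Measurable (fun ω (w : ℕ × ℕ) => X w ω) := measurable_pi_iff.2 h.meas
    exact Finset.measurable_prod _ fun i _ => (hF i).comp hX

/-- from the weak law to a bound for the Laplace transform of one block -/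
theorem h64_laplace (h : IsExpField P X) {q : ℕ × ℕ} {M g e : ℝ} (hM : 0 < M)
    (hp : P {ω | lp (fun w => X w ω) (0, 0) q ≤ (g - e) * M} ≤
      ENNReal.ofReal (Real.exp (-(g - 2 * e)) - Real.exp (-(g - e)))) (he : 0 < e) :
    ∫⁻ ω, ENNReal.ofReal (Real.exp (-(1 / M * lp (fun w => X w ω) (0, 0) q))) ∂P ≤
      ENNReal.ofReal (Real.exp (-(g - 2 * e))) := by
  have hms : MeasurableSet {ω | lp (fun w => X w ω) (0, 0) q ≤ (g - e) * M} :=
    measurableSet_le (IsExpField.measurable_lp h.meas _ _) measurable_const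
  have h1 : ∫⁻ ω, ENNReal.ofReal (Real.exp (-(1 / M * lp (fun w => X w ω) (0, 0) q))) ∂P ≤
      ∫⁻ ω, ({ω | lp (fun w => X w ω) (0, 0) q ≤ (g - e) * M}.indicator 1 ω +
        ENNReal.ofReal (Real.exp (-(g - e)))) ∂P := by
    refine lintegral_mono_ae ?_
    filter_upwards [h.ae_pos] with ω hω
    have hω0 : ∀ w, 0 ≤ X w ω := fun w => (hω w).le
    by_cases hmem : ω ∈ {ω | lp (fun w => X w ω) (0, 0) q ≤ (g - e) * M}
    · rw [Set.indicator_of_mem hmem]
      simp only [Pi.one_apply]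
      refine le_add_right ?_
      rw [ENNReal.ofReal_le_one, Real.exp_le_one_iff]
      have h2 : 0 ≤ lp (fun w => X w ω) (0, 0) q :=
        lp_nonneg hω0 ⟨Nat.zero_le _, Nat.zero_le _⟩
      have : 0 ≤ 1 / M * lp (fun w => X w ω) (0, 0) q := by positivity
      linarith
    · rw [Set.indicator_of_notMem hmem, zero_add]
      apply ENNReal.ofReal_le_ofReal
      apply Real.exp_le_exp.2
      have h2 : (g - e) * M < lp (fun w => X w ω) (0, 0) q := by
        simpa using hmem
      have h3 : g - e ≤ 1 / M * lp (fun w => X w ω) (0, 0) q := by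
        rw [one_div, inv_mul_eq_div, le_div_iff₀ hM]
        exact h2.le
      linarith
  refine h1.trans ?_
  rw [lintegral_add_right _ measurable_const, lintegral_indicator_one hms, lintegral_const,
    measure_univ, mul_one]
  refine (add_le_add_left hp _).trans ?_
  rw [← ENNReal.ofReal_add]
  · simp
  · have : Real.exp (-(g - e)) ≤ Real.exp (-(g - 2 * e)) := Real.exp_le_exp.2 (by linarith)
    linarith
  · exact (Real.exp_pos _).le

theorem superexp (h : IsExpField P X) {a b g : ℝ} (ha : 0 < a) (hb : 0 < b)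
    (hg : ∀ ε > 0, Tendsto (fun N : ℕ =>
      P {ω | lp (fun w => X w ω) (0, 0) (pt a b N) ≤ (g - ε) * N}) atTop (𝓝 0))
    {ε K : ℝ} (hε : 0 < ε) :
    ∀ᶠ N : ℕ in atTop, P {ω | lp (fun w => X w ω) (0, 0) (pt a b N) ≤ (g - ε) * N} ≤
      ENNReal.ofReal (Real.exp (-(K * N))) := by
  -- trivial case
  by_cases hge : g - ε ≤ 0
  · refine Eventually.of_forall fun N => ?_
    have : P {ω | lp (fun w => X w ω) (0, 0) (pt a b N) ≤ (g - ε) * N} = 0 := by
      have h0 : ∀ᵐ ω ∂P, ¬ (lp (fun w => X w ω) (0, 0) (pt a b N) ≤ (g - ε) * N) := by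
        filter_upwards [h.ae_pos] with ω hω
        obtain ⟨π, h1, h2⟩ := exists_lp (fun w => X w ω)
          (p := (0, 0)) (q := pt a b N) ⟨Nat.zero_le _, Nat.zero_le _⟩
        rw [h2, not_le]
        have h3 : 0 < ∑ w ∈ π, X w ω :=
          Finset.sum_pos (fun w _ => hω w) ⟨_, h1.left_mem⟩
        have h4 : (g - ε) * N ≤ 0 := mul_nonpos_of_nonpos_of_nonneg hge (Nat.cast_nonneg N)
        linarith
      simpa using (ae_iff.1 h0)
    rw [this]
    exact zero_le
  push Not at hge
  have hg0 : 0 < g := by linarith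
  -- constants
  set e := ε / 8 with he
  have he0 : 0 < e := by positivity
  set e2 := min (1 / 2) (ε / (4 * g)) with he2
  have he20 : 0 < e2 := by
    rw [he2]; exact lt_min (by norm_num) (by positivity)
  have he21 : e2 ≤ 1 / 2 := min_le_left _ _
  have he22 : e2 * g ≤ ε / 4 := by
    have : e2 ≤ ε / (4 * g) := min_le_right _ _
    calc e2 * g ≤ ε / (4 * g) * g := mul_le_mul_of_nonneg_right this hg0.le
      _ = ε / 4 := by field_simp
  set δ := Real.exp (-(g - 2 * e)) - Real.exp (-(g - e)) with hδ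
  have hδ0 : 0 < δ := by
    rw [hδ, sub_pos]; exact Real.exp_lt_exp.2 (by linarith)
  -- choice of the block size
  have hM1 : ∀ᶠ M : ℕ in atTop, P {ω | lp (fun w => X w ω) (0, 0) (pt a b M) ≤ (g - e) * M} ≤
      ENNReal.ofReal δ :=
    (hg e he0).eventually_le_const (by simpa using hδ0)
  have hM2 : ∀ᶠ M : ℕ in atTop, 2 / (e2 * a) ≤ (M : ℝ) :=
    tendsto_natCast_atTop_atTop.eventually_ge_atTop _
  have hM3 : ∀ᶠ M : ℕ in atTop, 2 / (e2 * b) ≤ (M : ℝ) :=
    tendsto_natCast_atTop_atTop.eventually_ge_atTop _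
  obtain ⟨M, hM1, hM2, hM3, hM4⟩ :=
    (hM1.and (hM2.and (hM3.and (eventually_ge_atTop 1)))).exists
  have hM0 : (0 : ℝ) < M := by exact_mod_cast hM4
  set A := ⌈a * M⌉₊ with hA
  set B := ⌈b * M⌉₊ with hB
  have hA1 : 1 ≤ A := Nat.one_le_iff_ne_zero.2 (by
    rw [hA]; exact (Nat.ceil_pos.2 (by positivity)).ne')
  have hB1 : 1 ≤ B := Nat.one_le_iff_ne_zero.2 (by
    rw [hB]; exact (Nat.ceil_pos.2 (by positivity)).ne')
  have hA2 : (A : ℝ) ≤ a * M + 1 := (Nat.ceil_lt_add_one (by positivity)).le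
  have hB2 : (B : ℝ) ≤ b * M + 1 := (Nat.ceil_lt_add_one (by positivity)).le
  have hpt : pt a b M = (A - 1, B - 1) := rfl
  rw [hpt] at hM1
  have hlap := h64_laplace h hM0 hM1 he0
  -- the number of strips
  set S := ⌈2 * K * M / ε⌉₊ with hS
  have hS1 : 2 * K * M / ε ≤ S := Nat.le_ceil _
  have hS2 : K ≤ S * (ε / 2) / M := by
    rw [div_le_iff₀ hε] at hS1
    rw [le_div_iff₀ hM0]
    linarith
  -- large N
  have hN1 : ∀ᶠ N : ℕ in atTop, (S + 2) * (a * M + 1) / (e2 * a / 2) ≤ (N : ℝ) :=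
    tendsto_natCast_atTop_atTop.eventually_ge_atTop _
  have hN2 : ∀ᶠ N : ℕ in atTop, (S + 2) * (b * M + 1) / (e2 * b / 2) ≤ (N : ℝ) :=
    tendsto_natCast_atTop_atTop.eventually_ge_atTop _
  filter_upwards [hN1, hN2, eventually_ge_atTop 1] with N hN1 hN2 hN3
  have hN0 : (0 : ℝ) < N := by exact_mod_cast hN3
  set n := ⌊(1 - e2) * N / M⌋₊ with hn
  have hnn : 0 ≤ (1 - e2) * N / M := by
    have : 0 ≤ 1 - e2 := by linarith
    positivity
  have hn1 : (n : ℝ) ≤ (1 - e2) * N / M := Nat.floor_le hnn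
  have hn2 : (1 - e2) * N / M ≤ n + 1 := (Nat.lt_floor_add_one _).le
  have geo : ∀ {c : ℝ} {C : ℕ}, 0 < c → (C : ℝ) ≤ c * M + 1 → 2 / (e2 * c) ≤ (M : ℝ) →
      (S + 2) * (c * M + 1) / (e2 * c / 2) ≤ (N : ℝ) → (S + n + 1) * C ≤ ⌈c * N⌉₊ := by
    intro c C hc hC hMc hNc
    have h1 : ((S + n + 1) * C : ℝ) ≤ c * N := by
      have h2 : ((S + n + 1) * C : ℝ) ≤ (S + 2 + (1 - e2) * N / M) * (c * M + 1) := by
        refine mul_le_mul (by linarith) hC (Nat.cast_nonneg _) ?_
        positivity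
      refine h2.trans ?_
      rw [div_le_iff₀ (by positivity)] at hNc hMc
      have h3 : (1 - e2) * N / M * (c * M + 1) = (1 - e2) * N * c + (1 - e2) * N / M := by
        field_simp
      have h4 : (1 - e2) * N / M ≤ e2 * c / 2 * N := by
        rw [div_le_iff₀ hM0]
        have h5 : (1 - e2) * N ≤ N := by nlinarith
        have h6 : (N : ℝ) * 2 ≤ N * (M * (e2 * c)) := mul_le_mul_of_nonneg_left hMc hN0.le
        nlinarith
      rw [add_mul, h3]
      nlinarith
    have h2 : (((S + n + 1) * C : ℕ) : ℝ) ≤ ⌈c * N⌉₊ := by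
      push_cast
      exact h1.trans (Nat.le_ceil _)
    exact_mod_cast h2
  have hq1 := geo ha hA2 hM2 hN1
  have hq2 := geo hb hB2 hM3 hN2
  have hcA : 1 ≤ ⌈a * N⌉₊ := Nat.one_le_iff_ne_zero.2 (Nat.ceil_pos.2 (by positivity)).ne'
  have hcB : 1 ≤ ⌈b * N⌉₊ := Nat.one_le_iff_ne_zero.2 (Nat.ceil_pos.2 (by positivity)).ne'
  have hst := h64_strip h hA1 hB1 S n (q := pt a b N) (s := 1 / M) (x := (g - ε) * N) ?_ ?_
    (by positivity)
  rotate_left
  · simp only [pt]
    have : (S + n) * A ≤ (S + n + 1) * A := Nat.mul_le_mul_right A (by omega)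
    omega
  · simp only [pt]
    have : (n + 1) * B ≤ (S + n + 1) * B := Nat.mul_le_mul_right B (by omega)
    omega
  refine hst.trans ?_
  refine (mul_le_mul_right (pow_le_pow_left' hlap _) _).trans ?_
  rw [← ENNReal.ofReal_pow (Real.exp_pos _).le, ← Real.exp_nat_mul,
    ← ENNReal.ofReal_mul (Real.exp_pos _).le, ← Real.exp_add]
  apply ENNReal.ofReal_le_ofReal
  apply Real.exp_le_exp.2
  push_cast
  have h7 : (g - 2 * e) * ((1 - e2) * N / M) ≤ (g - 2 * e) * (n + 1) :=
    mul_le_mul_of_nonneg_left hn2 (by linarith)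
  have h8 : (g - ε / 2) * (N / M) ≤ (g - 2 * e) * ((1 - e2) * N / M) := by
    have h9 : (g - ε / 2) ≤ (g - 2 * e) * (1 - e2) := by
      have : 0 ≤ 2 * e * e2 := by positivity
      nlinarith
    calc (g - ε / 2) * (N / M) ≤ ((g - 2 * e) * (1 - e2)) * (N / M) :=
          mul_le_mul_of_nonneg_right h9 (by positivity)
      _ = (g - 2 * e) * ((1 - e2) * N / M) := by ring
  have h10 : 1 / M * (S * ((g - ε) * N)) + S * (n + 1) * (-(g - 2 * e)) ≤
      S * ((g - ε) * (N / M) - (g - ε / 2) * (N / M)) := by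
    have h11 : 1 / (M : ℝ) * (S * ((g - ε) * N)) = S * ((g - ε) * (N / M)) := by ring
    have h12 : (S : ℝ) * ((g - ε / 2) * (N / M)) ≤ S * ((g - 2 * e) * (n + 1)) :=
      mul_le_mul_of_nonneg_left (h8.trans h7) (Nat.cast_nonneg _)
    rw [h11]
    linarith
  refine h10.trans ?_
  have h13 : (S : ℝ) * ((g - ε) * (N / M) - (g - ε / 2) * (N / M)) = -(S * (ε / 2) / M * N) := by
    ring
  rw [h13]
  have h14 : K * N ≤ S * (ε / 2) / M * N := mul_le_mul_of_nonneg_right hS2 hN0.le
  linarith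

end Helper97.LPP
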